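import Pool.Agent.TH284.Sp6

/-!
# The attractor of `x ↦ (x + b) / 12`, `b ∈ {0, 1, 8, 9}`
-/

set_option autoImplicit false
open MeasureTheory Matrix
open scoped ENNReal Real

namespace Pool.Agent.TH349.SA

open Pool.Agent.TH284.Sp

theorem bv_range (q : Q) : 0 ≤ bv q ∧ bv q ≤ 9 := by
  obtain ⟨p, r⟩ := q
  have hp : ((p : ℕ) : ℝ) ≤ 1 := by exact_mod_cast Nat.lt_succ_iff.1 p.2
  have hr : ((r : ℕ) : ℝ) ≤ 1 := by exact_mod_cast Nat.lt_succ_iff.1 r.2
  have hp0 : (0 : ℝ) ≤ ((p : ℕ) : ℝ) := Nat.cast_nonneg _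
  have hr0 : (0 : ℝ) ≤ ((r : ℕ) : ℝ) := Nat.cast_nonneg _
  unfold bv
  simp only
  constructor
  · linarith
  · linarith

theorem bound (q : Q) (k : ℕ) : ‖bv q / 12 ^ (k + 1)‖ ≤ 9 / 12 * (1 / 12 : ℝ) ^ k := by
  have h := bv_range q
  rw [Real.norm_eq_abs, abs_of_nonneg (div_nonneg h.1 (by positivity)), pow_succ, one_div, inv_pow]
  rw [div_le_iff₀ (by positivity)]
  have h12 : (0 : ℝ) < 12 ^ k := by positivity
  have e1 : 9 / 12 * (12 ^ k : ℝ)⁻¹ * (12 ^ k * 12) = 9 := by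
    field_simp
  rw [e1]
  exact h.2

theorem summable_bound : Summable fun k : ℕ => 9 / 12 * (1 / 12 : ℝ) ^ k :=
  (summable_geometric_of_lt_one (by norm_num) (by norm_num)).mul_left _

/-- the point with a given sequence of digits -/
noncomputable def cod (s : ℕ → Q) : ℝ := ∑' k : ℕ, bv (s k) / 12 ^ (k + 1)

theorem summable_cod (s : ℕ → Q) : Summable fun k : ℕ => bv (s k) / 12 ^ (k + 1) :=
  Summable.of_norm_bounded summable_bound fun k => bound (s k) k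

theorem continuous_cod : Continuous cod := by
  refine continuous_tsum (fun k => ?_) summable_bound fun k s => bound (s k) k
  have h1 : Continuous bv := continuous_of_discreteTopology
  exact (h1.comp (continuous_apply k)).div_const _

theorem cod_succ (s : ℕ → Q) : cod s = (cod (fun k => s (k + 1)) + bv (s 0)) / 12 := by
  unfold cod
  rw [(summable_cod s).tsum_eq_zero_add]
  have h1 : ∀ k : ℕ, bv (s (k + 1)) / 12 ^ (k + 1 + 1) = bv (s (k + 1)) / 12 ^ (k + 1) / 12 := by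
    intro k
    rw [pow_succ _ (k + 1), div_div]
  simp only [h1]
  rw [tsum_div_const]
  ring

/-- the attractor -/
def T0 : Set (Fin 1 → ℝ) := Set.range fun s : ℕ → Q => fun _ : Fin 1 => cod s

theorem T0_compact : IsCompact T0 :=
  isCompact_range (continuous_pi fun _ => continuous_cod)

theorem T0_nonempty : T0.Nonempty := ⟨_, fun _ => (0, 0), rfl⟩

theorem tau_apply (q : Q) (x : Fin 1 → ℝ) :
    (R12.map (Int.cast : ℤ → ℝ))⁻¹ *ᵥ (x + fun i => (bz q i : ℝ)) = fun _ => (x 0 + bv q) / 12 := by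
  rw [inv_R12]
  funext i
  simp only [Matrix.mulVec, dotProduct, Finset.univ_unique, Finset.sum_singleton, Pi.add_apply,
    bv, bz]
  have h3 : (default : Fin 1) = 0 := rfl
  rw [h3]
  push_cast
  ring

theorem T0_eq : T0 = ⋃ b ∈ B4,
    (fun x : Fin 1 → ℝ => (R12.map (Int.cast : ℤ → ℝ))⁻¹ *ᵥ (x + fun i => (b i : ℝ))) '' T0 := by
  ext y
  simp only [Set.mem_iUnion, Set.mem_image, exists_prop]
  constructor
  · rintro ⟨s, rfl⟩
    refine ⟨bz (s 0), Finset.mem_image_of_mem _ (Finset.mem_univ _),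
      fun _ => cod fun k => s (k + 1), ⟨_, rfl⟩, ?_⟩
    rw [tau_apply]
    funext i
    exact (cod_succ s).symm
  · rintro ⟨b, hb, x, ⟨s, rfl⟩, rfl⟩
    rw [B4, Finset.mem_image] at hb
    obtain ⟨q, -, rfl⟩ := hb
    refine ⟨fun n => Nat.casesOn n q s, ?_⟩
    rw [tau_apply]
    funext i
    exact cod_succ _

/-- Every compact invariant set lies in `[0, 9/11]`. -/
theorem range_of_attractor (T : Set (Fin 1 → ℝ)) (hc : IsCompact T) (hne : T.Nonempty)
    (hT : T = ⋃ b ∈ B4,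
      (fun x : Fin 1 → ℝ => (R12.map (Int.cast : ℤ → ℝ))⁻¹ *ᵥ (x + fun i => (b i : ℝ))) '' T)
    (x : Fin 1 → ℝ) (hx : x ∈ T) : 0 ≤ x 0 ∧ x 0 ≤ 9 / 11 := by
  have hcont : ContinuousOn (fun x : Fin 1 → ℝ => x 0) T := (continuous_apply 0).continuousOn
  obtain ⟨a, ha, hamin⟩ := hc.exists_isMinOn hne hcont
  obtain ⟨c, hcT, hcmax⟩ := hc.exists_isMaxOn hne hcont
  have pre : ∀ z ∈ T, ∃ y ∈ T, ∃ q : Q, z 0 = (y 0 + bv q) / 12 := by
    intro z hz
    rw [hT] at hz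
    simp only [Set.mem_iUnion, Set.mem_image, exists_prop] at hz
    obtain ⟨b, hb, y, hy, rfl⟩ := hz
    rw [B4, Finset.mem_image] at hb
    obtain ⟨q, -, rfl⟩ := hb
    exact ⟨y, hy, q, by rw [tau_apply]⟩
  obtain ⟨y, hy, q, hq⟩ := pre a ha
  obtain ⟨y', hy', q', hq'⟩ := pre c hcT
  have h1 : a 0 ≤ y 0 := hamin hy
  have h2 : y' 0 ≤ c 0 := hcmax hy'
  have h3 : a 0 ≤ x 0 := hamin hx
  have h4 : x 0 ≤ c 0 := hcmax hx
  have h5 := (bv_range q).1
  have h6 := (bv_range q').2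
  constructor
  · linarith
  · linarith

/-- The pieces of a compact invariant set are pairwise disjoint. -/
theorem pieces_disjoint (T : Set (Fin 1 → ℝ)) (hc : IsCompact T) (hne : T.Nonempty)
    (hT : T = ⋃ b ∈ B4,
      (fun x : Fin 1 → ℝ => (R12.map (Int.cast : ℤ → ℝ))⁻¹ *ᵥ (x + fun i => (b i : ℝ))) '' T)
    (b b' : Fin 1 → ℤ) (hb : b ∈ B4) (hb' : b' ∈ B4) (hne' : b ≠ b') :
    Disjoint
      ((fun x : Fin 1 → ℝ => (R12.map (Int.cast : ℤ → ℝ))⁻¹ *ᵥ (x + fun i => (b i : ℝ))) '' T)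
      ((fun x : Fin 1 → ℝ => (R12.map (Int.cast : ℤ → ℝ))⁻¹ *ᵥ (x + fun i => (b' i : ℝ))) '' T) := by
  rw [Set.disjoint_left]
  rintro z ⟨x, hx, rfl⟩ ⟨y, hy, hxy⟩
  rw [B4, Finset.mem_image] at hb hb'
  obtain ⟨q, -, rfl⟩ := hb
  obtain ⟨q', -, rfl⟩ := hb'
  have hxy' : (R12.map (Int.cast : ℤ → ℝ))⁻¹ *ᵥ (y + fun i => (bz q' i : ℝ)) =
      (R12.map (Int.cast : ℤ → ℝ))⁻¹ *ᵥ (x + fun i => (bz q i : ℝ)) := hxy
  rw [tau_apply, tau_apply] at hxy'
  have h1 : (y 0 + bv q') / 12 = (x 0 + bv q) / 12 := congrFun hxy' 0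
  have h2 : y 0 + bv q' = x 0 + bv q := by linarith
  have hx1 := range_of_attractor T hc hne hT x hx
  have hy1 := range_of_attractor T hc hne hT y hy
  apply hne'
  have e1 : bv q = ((bz q 0 : ℤ) : ℝ) := by
    simp only [bv, bz]
    push_cast
    ring
  have e2 : bv q' = ((bz q' 0 : ℤ) : ℝ) := by
    simp only [bv, bz]
    push_cast
    ring
  rw [e1, e2] at h2
  have h3 : ((bz q 0 - bz q' 0 : ℤ) : ℝ) < 1 := by push_cast; linarith
  have h4 : (-1 : ℝ) < ((bz q 0 - bz q' 0 : ℤ) : ℝ) := by push_cast; linarith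
  have h5 : bz q 0 - bz q' 0 < 1 := by exact_mod_cast h3
  have h6 : -1 < bz q 0 - bz q' 0 := by exact_mod_cast h4
  funext i
  have hi : i = 0 := Subsingleton.elim _ _
  rw [hi]
  omega

theorem Lam_countable : Lam.Countable := by
  have h : Lam ⊆ ⋃ n : ℕ, Set.range fun v : Fin n → Q => fun _ : Fin 1 => lam n v := by
    rintro l ⟨n, v, rfl⟩
    exact Set.mem_iUnion.2 ⟨n, v, rfl⟩
  exact (Set.countable_iUnion fun n => Set.countable_range _).mono h

end Pool.Agent.TH349.SA
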